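import Pool.Agent.H38.HF.Main58

/-!
Upper bound for the number of Hilbert cubes of dimension `d ≥ 3` in the squares.
-/

theorem Pool.Agent.Results.MP_de59a9_nt.FewCubes.result
    (d : ℕ) (hd : 3 ≤ d) (ε : ℝ) (hε : 0 < ε) :
    ∃ C : ℝ, ∀ N : ℕ, 1 ≤ N →
      {c : ℤ × (Fin d → ℤ) | 0 ≤ c.1 ∧ c.1 ≤ N ∧ (∀ i, c.2 i ≠ 0 ∧ |c.2 i| ≤ N) ∧
        ∀ I : Finset (Fin d), IsSquare (c.1 + ∑ i ∈ I, c.2 i)}.Finite ∧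
      (({c : ℤ × (Fin d → ℤ) | 0 ≤ c.1 ∧ c.1 ≤ N ∧ (∀ i, c.2 i ≠ 0 ∧ |c.2 i| ≤ N) ∧
        ∀ I : Finset (Fin d), IsSquare (c.1 + ∑ i ∈ I, c.2 i)}.ncard : ℕ) : ℝ) ≤
          C * (N : ℝ) ^ (5 / 8 + ε) :=
  H38.HF.main58 d hd ε hε
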