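import Pool.Agent.H68.MT.Final

/-!
Upper bound for the number of reduced Hilbert cubes `H(a₀; a, a, b, b)` in the squares (3 × 3 magic
squares of squares) and of the centres of seven squares.
-/

set_option autoImplicit false

theorem Pool.Agent.Results.MP_de59a9_nt.FewMagicSquares.result (ε : ℝ) (hε : 0 < ε) :
    ∃ C : ℝ,
      (∀ N : ℕ, 1 ≤ N →
        {c : ℤ × ℤ × ℤ | c.2.1 ≠ 0 ∧ c.2.2 ≠ 0 ∧ Int.gcd c.1 (Int.gcd c.2.1 c.2.2) = 1 ∧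
          ∀ i j : Fin 3, IsSquare (c.1 + (i : ℕ) * c.2.1 + (j : ℕ) * c.2.2) ∧
            c.1 + (i : ℕ) * c.2.1 + (j : ℕ) * c.2.2 ≤ N}.Finite ∧
        (({c : ℤ × ℤ × ℤ | c.2.1 ≠ 0 ∧ c.2.2 ≠ 0 ∧ Int.gcd c.1 (Int.gcd c.2.1 c.2.2) = 1 ∧
          ∀ i j : Fin 3, IsSquare (c.1 + (i : ℕ) * c.2.1 + (j : ℕ) * c.2.2) ∧
            c.1 + (i : ℕ) * c.2.1 + (j : ℕ) * c.2.2 ≤ N}.ncard : ℕ) : ℝ) ≤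
          C * (N : ℝ) ^ (1 / 3 + ε)) ∧
      ∀ M : ℕ, 1 ≤ M →
        (({m : ℕ | 1 ≤ m ∧ m ≤ M ∧ ∃ a b : ℤ, a ≠ 0 ∧ b ≠ 0 ∧ a + b ≠ 0 ∧
          (∀ D ∈ ({a, b, a + b} : Set ℤ), IsSquare ((m : ℤ) ^ 2 + D) ∧
            IsSquare ((m : ℤ) ^ 2 - D)) ∧
          ∀ p : ℕ, p.Prime → p ∣ m → ¬ ((p : ℤ) ^ 2 ∣ a ∧ (p : ℤ) ^ 2 ∣ b)}.ncard : ℕ) : ℝ) ≤
          C * (M : ℝ) ^ (2 / 3 + ε) :=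
  Pool.H68.MT.main5 ε hε
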