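import Pool.Agent.H51.M3.Main
import Pool.Agent.H38.H3.Main

/-!
Lower bounds for the number of reduced Hilbert cubes of dimension 3 in the squares:
`N^(1/4) log N` for those with `a₁ < a₂ < a₃`, `N^(1/4)` for those with `a₁ = a₂ < a₃`.
-/

set_option autoImplicit false

/-- At least `c N^(1/4) log N` tuples `(a₀; a₁, a₂, a₃)` with `0 ≤ a₀ ≤ N`, `0 < a_i ≤ N`,
`a₁ < a₂ < a₃` and no common divisor but `±1` have all eight sums squares, and at least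
`c N^(1/4)` such tuples with `a₁ = a₂ < a₃`. -/
theorem Pool.Agent.Results.MP_de59a9_nt.ManyCubes.result :
    ∃ c : ℝ, 0 < c ∧ ∃ N₀ : ℕ, ∀ N : ℕ, N₀ ≤ N →
      c * ((N : ℝ) ^ (1 / 4 : ℝ) * Real.log N) ≤
        ((({a : ℤ × (Fin 3 → ℤ) | 0 ≤ a.1 ∧ a.1 ≤ N ∧ (∀ i, 0 < a.2 i ∧ a.2 i ≤ N) ∧
          a.2 0 < a.2 1 ∧ a.2 1 < a.2 2 ∧
          (∀ e : ℤ, e ∣ a.1 → (∀ i, e ∣ a.2 i) → IsUnit e) ∧
          ∀ I : Finset (Fin 3), IsSquare (a.1 + ∑ i ∈ I, a.2 i)}).ncard : ℕ) : ℝ) ∧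
      c * (N : ℝ) ^ (1 / 4 : ℝ) ≤
        ((({a : ℤ × (Fin 3 → ℤ) | 0 ≤ a.1 ∧ a.1 ≤ N ∧ (∀ i, 0 < a.2 i ∧ a.2 i ≤ N) ∧
          a.2 0 = a.2 1 ∧ a.2 1 < a.2 2 ∧
          (∀ e : ℤ, e ∣ a.1 → (∀ i, e ∣ a.2 i) → IsUnit e) ∧
          ∀ I : Finset (Fin 3), IsSquare (a.1 + ∑ i ∈ I, a.2 i)}).ncard : ℕ) : ℝ) := by
  obtain ⟨c, hc, N₁, h1⟩ := Pool.Agent.H51.M3.main
  obtain ⟨c', hc', N₂, h2⟩ := Pool.Agent.H38.H3.main
  refine ⟨min c c', lt_min hc hc', max (max N₁ N₂) 1, fun N hN => ⟨?_, ?_⟩⟩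
  · have hN1 : (1 : ℝ) ≤ N := by exact_mod_cast (le_max_right _ _).trans hN
    refine le_trans ?_ (h1 N (((le_max_left _ _).trans (le_max_left _ _)).trans hN))
    refine mul_le_mul_of_nonneg_right (min_le_left _ _) ?_
    exact mul_nonneg (Real.rpow_nonneg (by linarith) _) (Real.log_nonneg hN1)
  · refine le_trans ?_ (h2 N (((le_max_right _ _).trans (le_max_left _ _)).trans hN))
    exact mul_le_mul_of_nonneg_right (min_le_right _ _)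
      (Real.rpow_nonneg (Nat.cast_nonneg _) _)
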