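import Pool.Agent.H51.HQ.Fin

set_option autoImplicit false

namespace Pool.Agent.Results.MP_de59a9_nt.StepProduct

/-- Let a Hilbert cube of dimension `d` with base `a₀` and nonzero steps `a i` be contained in the squares. For every
set `J` of `k ≥ 2` directions let `m` be `a₀` plus the sum of the positive steps outside `J` plus the sum of the
negative steps in `J`. Then `4^(k+1) m^(2k-1) ≤ ((2k-3)!!)² (∏ i ∈ J, a i)²`. -/
theorem result (d : ℕ) (a₀ : ℤ) (a : Fin d → ℤ) (ha : ∀ i, a i ≠ 0)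
    (h : ∀ I : Finset (Fin d), IsSquare (a₀ + ∑ i ∈ I, a i)) (J : Finset (Fin d)) (hJ : 2 ≤ J.card) :
    4 ^ (J.card + 1) * (a₀ + ∑ i ∈ Jᶜ, max (a i) 0 + ∑ i ∈ J, min (a i) 0) ^ (2 * J.card - 1) ≤
      ((Nat.doubleFactorial (2 * J.card - 3) : ℕ) : ℤ) ^ 2 * (∏ i ∈ J, a i) ^ 2 :=
  Pool.Agent.H51.HQ.main a₀ a ha h J hJ

end Pool.Agent.Results.MP_de59a9_nt.StepProduct
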